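import Mathlib

/-!
Powers of integers near powers of a common integer `N`: elementary estimates.
-/

set_option autoImplicit false

namespace Pool.Agent.X5.FC

theorem err_bound (v : ℝ) (n : ℕ) :
    |(1 + v) ^ n - 1 - n * v| ≤ (n : ℝ) ^ 2 / 2 * v ^ 2 * (1 + |v|) ^ n := by
  induction n with
  | zero => simp
  | succ n ih =>
    have e : (1 + v) ^ (n + 1) - 1 - ((n + 1 : ℕ) : ℝ) * v =
        (1 + v) * ((1 + v) ^ n - 1 - n * v) + n * v ^ 2 := by push_cast; ring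
    rw [e]
    have h1 : |1 + v| ≤ 1 + |v| := (abs_add_le 1 v).trans (by simp)
    have hv : 0 ≤ |v| := abs_nonneg v
    have h2 : 1 ≤ (1 + |v|) ^ (n + 1) := one_le_pow₀ (by linarith)
    have hn : (0 : ℝ) ≤ n := Nat.cast_nonneg n
    have h3 : 0 ≤ (n : ℝ) * v ^ 2 := by positivity
    calc |(1 + v) * ((1 + v) ^ n - 1 - n * v) + n * v ^ 2|
        ≤ |1 + v| * |(1 + v) ^ n - 1 - n * v| + n * v ^ 2 := by
          refine (abs_add_le _ _).trans ?_
          rw [abs_mul, abs_of_nonneg h3]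
      _ ≤ (1 + |v|) * ((n : ℝ) ^ 2 / 2 * v ^ 2 * (1 + |v|) ^ n) +
            n * v ^ 2 * (1 + |v|) ^ (n + 1) := by
          have := mul_le_mul h1 ih (abs_nonneg _) (by linarith)
          have h4 : (n : ℝ) * v ^ 2 ≤ n * v ^ 2 * (1 + |v|) ^ (n + 1) :=
            le_mul_of_one_le_right h3 h2
          linarith
      _ = ((n : ℝ) ^ 2 / 2 + n) * (v ^ 2 * (1 + |v|) ^ (n + 1)) := by ring
      _ ≤ (((n + 1 : ℕ) : ℝ) ^ 2 / 2) * (v ^ 2 * (1 + |v|) ^ (n + 1)) := by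
          apply mul_le_mul_of_nonneg_right _ (by positivity)
          push_cast
          nlinarith
      _ = _ := by ring

theorem pow_exp_bound {v : ℝ} {n : ℕ} (h : n * |v| ≤ 1) : (1 + |v|) ^ n ≤ 1 + 2 * (n * |v|) := by
  have hv : 0 ≤ |v| := abs_nonneg v
  have h1 : (1 + |v|) ^ n ≤ Real.exp (n * |v|) := by
    have h2 : 1 + |v| ≤ Real.exp |v| := by linarith [Real.add_one_le_exp |v|]
    calc (1 + |v|) ^ n ≤ (Real.exp |v|) ^ n := pow_le_pow_left₀ (by linarith) h2 n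
      _ = Real.exp (n * |v|) := by rw [← Real.exp_nat_mul]
  have hx : 0 ≤ (n : ℝ) * |v| := by positivity
  have h3 : Real.exp (n * |v|) ≤ 1 + 2 * (n * |v|) := by
    have := Real.abs_exp_sub_one_le (x := (n : ℝ) * |v|) (by rw [abs_of_nonneg hx]; exact h)
    rw [abs_of_nonneg hx] at this
    have := (abs_le.mp this).2
    linarith
  exact h1.trans h3

/-- second order estimate -/
theorem err_small {v : ℝ} {n : ℕ} (h : n * |v| ≤ 1 / 4) :
    |(1 + v) ^ n - 1 - n * v| ≤ (n * |v|) ^ 2 := by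
  have h1 := err_bound v n
  have h2 := pow_exp_bound (v := v) (n := n) (by linarith)
  have h3 : (1 + |v|) ^ n ≤ 2 := by linarith
  refine h1.trans ?_
  calc (n : ℝ) ^ 2 / 2 * v ^ 2 * (1 + |v|) ^ n ≤ (n : ℝ) ^ 2 / 2 * v ^ 2 * 2 :=
        mul_le_mul_of_nonneg_left h3 (by positivity)
    _ = (n * |v|) ^ 2 := by rw [mul_pow, sq_abs]; ring

/-- first order estimate -/
theorem pow_near {v : ℝ} {n : ℕ} {τ : ℝ} (h : n * |v| ≤ τ) (hτ : τ ≤ 1 / 4) :
    1 - 2 * τ ≤ (1 + v) ^ n ∧ (1 + v) ^ n ≤ 1 + 2 * τ := by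
  have h1 := err_small (v := v) (n := n) (by linarith)
  have h0 : 0 ≤ (n : ℝ) * |v| := by positivity
  have h2 : (n * |v|) ^ 2 ≤ τ := by nlinarith
  have h3 : |(n : ℝ) * v| ≤ τ := by
    rw [abs_mul, Nat.abs_cast]; exact h
  have h4 := abs_le.mp h1
  have h5 := abs_le.mp h3
  constructor <;> linarith [h4.1, h4.2, h5.1, h5.2]

/-- mean value estimates for `H ^ t - F ^ t` -/
theorem diff_pow_ge {F H : ℝ} (hF : 0 < F) (hFH : F ≤ H) (t : ℕ) (ht : 1 ≤ t) :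
    t * (H - F) * F ^ (t - 1) ≤ H ^ t - F ^ t := by
  obtain ⟨s, rfl⟩ : ∃ s, t = s + 1 := ⟨t - 1, by omega⟩
  have hb := one_add_mul_le_pow (a := (H - F) / F) (by
    have : 0 ≤ (H - F) / F := div_nonneg (by linarith) hF.le
    linarith) (s + 1)
  have h1 : 1 + (H - F) / F = H / F := by field_simp; ring
  rw [h1, div_pow] at hb
  have hFs : 0 < F ^ (s + 1) := pow_pos hF _
  rw [le_div_iff₀ hFs] at hb
  have h2 : (1 + ((s + 1 : ℕ) : ℝ) * ((H - F) / F)) * F ^ (s + 1) =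
      F ^ (s + 1) + ((s + 1 : ℕ) : ℝ) * (H - F) * F ^ s := by
    field_simp
    ring
  rw [h2] at hb
  simp only [Nat.add_sub_cancel]
  linarith

theorem diff_pow_le {F H : ℝ} (hF : 0 < F) (hFH : F ≤ H) (t : ℕ) (ht : 1 ≤ t) :
    H ^ t - F ^ t ≤ t * (H - F) * H ^ (t - 1) := by
  obtain ⟨s, rfl⟩ : ∃ s, t = s + 1 := ⟨t - 1, by omega⟩
  have hH : 0 < H := lt_of_lt_of_le hF hFH
  have hb := one_add_mul_le_pow (a := (F - H) / H) (by
    have : -1 ≤ (F - H) / H := by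
      rw [le_div_iff₀ hH]; linarith
    linarith) (s + 1)
  have h1 : 1 + (F - H) / H = F / H := by field_simp; ring
  rw [h1, div_pow] at hb
  have hHs : 0 < H ^ (s + 1) := pow_pos hH _
  rw [le_div_iff₀ hHs] at hb
  have h2 : (1 + ((s + 1 : ℕ) : ℝ) * ((F - H) / H)) * H ^ (s + 1) =
      H ^ (s + 1) + ((s + 1 : ℕ) : ℝ) * (F - H) * H ^ s := by
    field_simp
    ring
  rw [h2] at hb
  simp only [Nat.add_sub_cancel]
  linarith

/-- The final contradiction: `t R` is comparable with a power of `N` and with `w N ^ e`, where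
`2 ≤ w ≤ N / 2`. -/
theorem fin_contra {N : ℕ} (hN : 4 ≤ N) {P w : ℝ} {r e : ℕ} (hw2 : 2 ≤ w) (hwN : w ≤ N / 2)
    (h1 : (9 / 10 : ℝ) * P ≤ (11 / 10) * (N : ℝ) ^ r) (h2 : (9 / 10 : ℝ) * (N : ℝ) ^ r ≤ (11 / 10) * P)
    (h3 : (9 / 10 : ℝ) * (w * (N : ℝ) ^ e) ≤ P) (h4 : P ≤ (11 / 10) * (w * (N : ℝ) ^ e)) : False := by
  have hNR : (4 : ℝ) ≤ N := by exact_mod_cast hN
  have he : 0 < (N : ℝ) ^ e := by positivity
  rcases Nat.lt_or_ge e r with her | her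
  · -- r ≥ e + 1
    have h5 : (N : ℝ) ^ (e + 1) ≤ (N : ℝ) ^ r := pow_le_pow_right₀ (by linarith) her
    rw [pow_succ] at h5
    have h6 : w * (N : ℝ) ^ e ≤ (N / 2) * (N : ℝ) ^ e := mul_le_mul_of_nonneg_right hwN he.le
    nlinarith
  · have h5 : (N : ℝ) ^ r ≤ (N : ℝ) ^ e := pow_le_pow_right₀ (by linarith) her
    have h6 : 2 * (N : ℝ) ^ e ≤ w * (N : ℝ) ^ e := mul_le_mul_of_nonneg_right hw2 he.le
    nlinarith

end Pool.Agent.X5.FC
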