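import Mathlib
import Pool.Agent.X5.FC.Core

/-!
Powers of integers near powers of a common integer `N`: the two dominating terms.
-/

set_option autoImplicit false

namespace Pool.Agent.X5.FC

/-- main term and contradiction -/
theorem key {N : ℕ} (hN : 4 ≤ N) {R μ w : ℝ} {t D r e : ℕ} (hR : 0 < R) (ht : 1 ≤ t)
    (hμ : |R / (N : ℝ) ^ D - μ| ≤ |μ| / 20) (hw : t * |μ| * (N : ℝ) ^ D = w * (N : ℝ) ^ e)
    (hw2 : 2 ≤ w) (hwN : w ≤ N / 2)
    (h1 : (49 / 50 : ℝ) * (t * R) ≤ (51 / 50) * (N : ℝ) ^ r)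
    (h2 : (49 / 50 : ℝ) * (N : ℝ) ^ r ≤ (51 / 50) * (t * R)) : False := by
  have hNR : (4 : ℝ) ≤ N := by exact_mod_cast hN
  have hD : 0 < (N : ℝ) ^ D := by positivity
  have he : 0 < (N : ℝ) ^ e := by positivity
  have hr : 0 < (N : ℝ) ^ r := by positivity
  have htR : (1 : ℝ) ≤ t := by exact_mod_cast ht
  have hRD : 0 < R / (N : ℝ) ^ D := by positivity
  have hμa := abs_nonneg μ
  have h3 := abs_le.mp hμ
  have hμpos : 0 < μ := by
    by_contra hneg
    push Not at hneg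
    rw [abs_of_nonpos hneg] at h3
    have := h3.2
    have : R / (N : ℝ) ^ D ≤ μ + -μ / 20 := by linarith
    nlinarith
  rw [abs_of_pos hμpos] at h3 hw
  have h4 : (19 / 20) * μ ≤ R / (N : ℝ) ^ D := by linarith [h3.1]
  have h5 : R / (N : ℝ) ^ D ≤ (21 / 20) * μ := by linarith [h3.2]
  rw [le_div_iff₀ hD] at h4
  rw [div_le_iff₀ hD] at h5
  have h6 : (19 / 20 : ℝ) * (w * (N : ℝ) ^ e) ≤ t * R := by
    rw [← hw]
    have := mul_le_mul_of_nonneg_left h4 (show (0 : ℝ) ≤ t by linarith)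
    linarith
  have h7 : t * R ≤ (21 / 20) * (w * (N : ℝ) ^ e) := by
    rw [← hw]
    have := mul_le_mul_of_nonneg_left h5 (show (0 : ℝ) ≤ t by linarith)
    linarith
  have hwe : 0 < w * (N : ℝ) ^ e := by positivity
  refine fin_contra hN (P := t * R) (w := w) (r := r) (e := e) hw2 hwN ?_ ?_ ?_ ?_
  · nlinarith
  · nlinarith
  · linarith
  · linarith

theorem sq_small {y : ℝ} (h0 : 0 ≤ y) (h : y ≤ 1 / 100) : y ^ 2 ≤ y / 100 := by nlinarith

theorem two_le_mul {x y : ℝ} (hx : 2 ≤ x) (hy : 1 ≤ y) : 2 ≤ x * y := by nlinarith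

theorem one_le_mul' {x y : ℝ} (hx : 1 ≤ x) (hy : 1 ≤ y) : 1 ≤ x * y := by nlinarith

theorem dom {N : ℕ} (hN : 4 ≤ N) {K L : ℝ} (hL0 : 0 ≤ L) (hK : 1 ≤ K) (hKL : K * L ≤ N / 100)
    {a c x z l k q : ℕ} {B : ℝ} (ha0 : 0 < a) (hc0 : 0 < c) (hx : 1 ≤ x) (hz : 1 ≤ z)
    (hl : 2 ≤ l) (hk : 2 ≤ k) (hlK : (l : ℝ) ≤ K) (hkK : (k : ℝ) ≤ K)
    (ha : |(a : ℝ) - (N : ℝ) ^ x| ≤ L) (hc : |(c : ℝ) - (N : ℝ) ^ z| ≤ L) (hxz : x * l = z * k)
    (hB : (a : ℝ) ^ l + B = (c : ℝ) ^ k) (hB0 : 0 < B)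
    (hB1 : (49 / 50 : ℝ) * (N : ℝ) ^ q ≤ B) (hB2 : B ≤ (51 / 50) * (N : ℝ) ^ q) : False := by
  have hNR : (4 : ℝ) ≤ N := by exact_mod_cast hN
  have hN0 : (0 : ℝ) < N := by linarith
  -- the exponents
  obtain ⟨x', z', hcop, hx', hz'⟩ := Nat.exists_coprime x z
  obtain ⟨g, hg⟩ : ∃ g, g = Nat.gcd x z := ⟨_, rfl⟩
  rw [← hg] at hx' hz'
  have hg0 : 0 < g := by
    rcases Nat.eq_zero_or_pos g with h | h
    · rw [h, mul_zero] at hx'; omega
    · exact h
  have hx'0 : 0 < x' := by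
    rcases Nat.eq_zero_or_pos x' with h | h
    · rw [h, zero_mul] at hx'; omega
    · exact h
  have hz'0 : 0 < z' := by
    rcases Nat.eq_zero_or_pos z' with h | h
    · rw [h, zero_mul] at hz'; omega
    · exact h
  have h1 : x' * l = z' * k := by
    have h2 : (x' * l) * g = (z' * k) * g := by
      calc (x' * l) * g = (x' * g) * l := by ring
        _ = (z' * g) * k := by rw [← hx', ← hz']; exact hxz
        _ = (z' * k) * g := by ring
    exact Nat.eq_of_mul_eq_mul_right hg0 h2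
  have h2 : z' ∣ l := by
    have h3 : z' ∣ x' * l := ⟨k, h1⟩
    exact (Nat.Coprime.dvd_of_dvd_mul_left hcop.symm h3)
  obtain ⟨t, ht⟩ := h2
  have hkt : k = x' * t := by
    have h3 : z' * (x' * t) = z' * k := by
      rw [← h1, ht]; ring
    exact (Nat.eq_of_mul_eq_mul_left hz'0 h3).symm
  have ht1 : 1 ≤ t := by
    rcases Nat.eq_zero_or_pos t with h | h
    · rw [h, mul_zero] at ht; omega
    · exact h
  have htR : (1 : ℝ) ≤ t := by exact_mod_cast ht1
  obtain ⟨D, hD⟩ : ∃ D, D = x * z' := ⟨_, rfl⟩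
  have hD2 : D = z * x' := by rw [hD, hx', hz']; ring
  have hxD : x ≤ D := by rw [hD]; exact Nat.le_mul_of_pos_right x hz'0
  have hzD : z ≤ D := by rw [hD2]; exact Nat.le_mul_of_pos_right z hx'0
  -- the perturbations
  obtain ⟨u, hu⟩ : ∃ u : ℝ, u = ((a : ℝ) - (N : ℝ) ^ x) / (N : ℝ) ^ x := ⟨_, rfl⟩
  obtain ⟨v, hv⟩ : ∃ v : ℝ, v = ((c : ℝ) - (N : ℝ) ^ z) / (N : ℝ) ^ z := ⟨_, rfl⟩
  have hNx : 0 < (N : ℝ) ^ x := by positivity
  have hNz : 0 < (N : ℝ) ^ z := by positivity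
  have hau : (a : ℝ) = (N : ℝ) ^ x * (1 + u) := by rw [hu]; field_simp; ring
  have hcv : (c : ℝ) = (N : ℝ) ^ z * (1 + v) := by rw [hv]; field_simp; ring
  have hNx1 : (N : ℝ) ≤ (N : ℝ) ^ x := le_self_pow₀ (by linarith) (by omega)
  have hNz1 : (N : ℝ) ≤ (N : ℝ) ^ z := le_self_pow₀ (by linarith) (by omega)
  have hKu : K * |u| ≤ 1 / 100 := by
    rw [hu, abs_div, abs_of_pos hNx, ← mul_div_assoc, div_le_iff₀ hNx]
    calc K * |(a : ℝ) - (N : ℝ) ^ x| ≤ K * L := mul_le_mul_of_nonneg_left ha (by linarith)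
      _ ≤ N / 100 := hKL
      _ ≤ 1 / 100 * (N : ℝ) ^ x := by linarith
  have hKv : K * |v| ≤ 1 / 100 := by
    rw [hv, abs_div, abs_of_pos hNz, ← mul_div_assoc, div_le_iff₀ hNz]
    calc K * |(c : ℝ) - (N : ℝ) ^ z| ≤ K * L := mul_le_mul_of_nonneg_left hc (by linarith)
      _ ≤ N / 100 := hKL
      _ ≤ 1 / 100 * (N : ℝ) ^ z := by linarith
  have hx'K : (x' : ℝ) ≤ K := by
    refine le_trans ?_ hkK
    rw [hkt]
    exact_mod_cast Nat.le_mul_of_pos_right x' ht1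
  have hz'K : (z' : ℝ) ≤ K := by
    refine le_trans ?_ hlK
    rw [ht]
    exact_mod_cast Nat.le_mul_of_pos_right z' ht1
  have nu : ∀ n : ℕ, (n : ℝ) ≤ K → n * |u| ≤ 1 / 100 := fun n hn =>
    (mul_le_mul_of_nonneg_right hn (abs_nonneg u)).trans hKu
  have nv : ∀ n : ℕ, (n : ℝ) ≤ K → n * |v| ≤ 1 / 100 := fun n hn =>
    (mul_le_mul_of_nonneg_right hn (abs_nonneg v)).trans hKv
  -- H and F
  obtain ⟨H, hH⟩ : ∃ H : ℝ, H = (c : ℝ) ^ x' := ⟨_, rfl⟩
  obtain ⟨F, hF⟩ : ∃ F : ℝ, F = (a : ℝ) ^ z' := ⟨_, rfl⟩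
  have hF0 : 0 < F := by rw [hF]; exact pow_pos (by exact_mod_cast ha0) _
  have hH0 : 0 < H := by rw [hH]; exact pow_pos (by exact_mod_cast hc0) _
  have hHt : H ^ t = (c : ℝ) ^ k := by rw [hH, ← pow_mul, hkt]
  have hFt : F ^ t = (a : ℝ) ^ l := by rw [hF, ← pow_mul, ht]
  have hBHF : B = H ^ t - F ^ t := by rw [hHt, hFt]; linarith
  have hFH : F < H := by
    by_contra hcon
    push Not at hcon
    have := pow_le_pow_left₀ hH0.le hcon t
    linarith
  have hR1 : 1 ≤ H - F := by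
    have h5 : a ^ z' < c ^ x' := by
      have : ((a ^ z' : ℕ) : ℝ) < ((c ^ x' : ℕ) : ℝ) := by
        push_cast; rw [← hF, ← hH]; exact hFH
      exact_mod_cast this
    have h6 : ((a ^ z' + 1 : ℕ) : ℝ) ≤ ((c ^ x' : ℕ) : ℝ) := by exact_mod_cast h5
    push_cast at h6
    rw [hF, hH]; linarith
  have hHD : H = (N : ℝ) ^ D * (1 + v) ^ x' := by
    rw [hH, hcv, mul_pow, ← pow_mul, hD2]
  have hFD : F = (N : ℝ) ^ D * (1 + u) ^ z' := by
    rw [hF, hau, mul_pow, ← pow_mul, hD]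
  have hND : 0 < (N : ℝ) ^ D := by positivity
  -- the powers F ^ (t-1), H ^ (t-1)
  obtain ⟨E, hE⟩ : ∃ E, E = D * (t - 1) := ⟨_, rfl⟩
  have hNE : 0 < (N : ℝ) ^ E := by positivity
  have hFt1 : (49 / 50 : ℝ) * (N : ℝ) ^ E ≤ F ^ (t - 1) := by
    rw [hFD, mul_pow, ← pow_mul, ← pow_mul, ← hE]
    have h5 : ((z' * (t - 1) : ℕ) : ℝ) ≤ K := by
      refine le_trans ?_ hlK
      rw [ht]
      exact_mod_cast Nat.mul_le_mul_left z' (Nat.sub_le t 1)
    have h6 := (pow_near (nu _ h5) (by norm_num)).1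
    have h7 := mul_le_mul_of_nonneg_left h6 hNE.le
    linarith
  have hHt1 : H ^ (t - 1) ≤ (51 / 50 : ℝ) * (N : ℝ) ^ E := by
    rw [hHD, mul_pow, ← pow_mul, ← pow_mul, ← hE]
    have h5 : ((x' * (t - 1) : ℕ) : ℝ) ≤ K := by
      refine le_trans ?_ hkK
      rw [hkt]
      exact_mod_cast Nat.mul_le_mul_left x' (Nat.sub_le t 1)
    have h6 := (pow_near (nv _ h5) (by norm_num)).2
    have h7 := mul_le_mul_of_nonneg_left h6 hNE.le
    linarith
  have hd1 := diff_pow_ge hF0 hFH.le t ht1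
  have hd2 := diff_pow_le hF0 hFH.le t ht1
  rw [← hBHF] at hd1 hd2
  have hP1 : 1 ≤ t * (H - F) := by
    calc (1 : ℝ) = 1 * 1 := by norm_num
      _ ≤ t * (H - F) := mul_le_mul htR hR1 (by norm_num) (by linarith)
  obtain ⟨P, hP⟩ : ∃ P : ℝ, P = t * (H - F) := ⟨_, rfl⟩
  rw [← hP] at hd1 hd2 hP1
  have e1 : (49 / 50 : ℝ) * P * (N : ℝ) ^ E ≤ (51 / 50) * (N : ℝ) ^ q := by
    have := mul_le_mul_of_nonneg_left hFt1 (show 0 ≤ P by linarith)
    linarith
  have e2 : (49 / 50 : ℝ) * (N : ℝ) ^ q ≤ (51 / 50) * P * (N : ℝ) ^ E := by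
    have := mul_le_mul_of_nonneg_left hHt1 (show 0 ≤ P by linarith)
    linarith
  have hEq : E ≤ q := by
    by_contra hcon
    push Not at hcon
    have h5 : (N : ℝ) ^ (q + 1) ≤ (N : ℝ) ^ E := pow_le_pow_right₀ (by linarith) hcon
    rw [pow_succ] at h5
    have hq0 : 0 < (N : ℝ) ^ q := by positivity
    have h6 : (49 / 50 : ℝ) * 1 * (N : ℝ) ^ E ≤ (49 / 50) * P * (N : ℝ) ^ E := by gcongr
    have h7 : (N : ℝ) ^ q * 4 ≤ (N : ℝ) ^ q * N := by gcongr
    linarith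
  obtain ⟨r, rfl⟩ : ∃ r, q = E + r := ⟨q - E, by omega⟩
  rw [pow_add] at e1 e2
  have e3 : (49 / 50 : ℝ) * P ≤ (51 / 50) * (N : ℝ) ^ r := by
    have h5 : ((49 / 50 : ℝ) * P) * (N : ℝ) ^ E ≤ ((51 / 50) * (N : ℝ) ^ r) * (N : ℝ) ^ E := by
      linarith
    exact le_of_mul_le_mul_right h5 hNE
  have e4 : (49 / 50 : ℝ) * (N : ℝ) ^ r ≤ (51 / 50) * P := by
    have h5 : ((49 / 50 : ℝ) * (N : ℝ) ^ r) * (N : ℝ) ^ E ≤ ((51 / 50) * P) * (N : ℝ) ^ E := by
      linarith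
    exact le_of_mul_le_mul_right h5 hNE
  rw [hP] at e3 e4
  -- expansion of H - F
  obtain ⟨α, hα⟩ : ∃ α : ℝ, α = x' * v := ⟨_, rfl⟩
  obtain ⟨β, hβ⟩ : ∃ β : ℝ, β = z' * u := ⟨_, rfl⟩
  have hαa : |α| = x' * |v| := by rw [hα, abs_mul, Nat.abs_cast]
  have hβa : |β| = z' * |u| := by rw [hβ, abs_mul, Nat.abs_cast]
  have hα1 : |α| ≤ 1 / 100 := by rw [hαa]; exact nv _ hx'K
  have hβ1 : |β| ≤ 1 / 100 := by rw [hβa]; exact nu _ hz'K
  have r1 := err_small (v := v) (n := x') (by linarith [nv _ hx'K])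
  have r2 := err_small (v := u) (n := z') (by linarith [nu _ hz'K])
  rw [← hαa, ← hα] at r1
  rw [← hβa, ← hβ] at r2
  have hRD : (H - F) / (N : ℝ) ^ D = (1 + v) ^ x' - (1 + u) ^ z' := by
    rw [hHD, hFD]; field_simp
  have hexp : |(H - F) / (N : ℝ) ^ D - (α - β)| ≤ |α| ^ 2 + |β| ^ 2 := by
    rw [hRD]
    have : (1 + v) ^ x' - (1 + u) ^ z' - (α - β) =
        ((1 + v) ^ x' - 1 - α) - ((1 + u) ^ z' - 1 - β) := by ring
    rw [this]
    exact (abs_sub _ _).trans (add_le_add r1 r2)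
  have hRpos : 0 < H - F := by linarith
  -- integrality of the perturbations
  have inta : (a : ℝ) - (N : ℝ) ^ x ≠ 0 → 1 ≤ |(a : ℝ) - (N : ℝ) ^ x| := by
    intro h
    have h5 : ((((a : ℤ) - (N : ℤ) ^ x : ℤ)) : ℝ) = (a : ℝ) - (N : ℝ) ^ x := by push_cast; ring
    rw [← h5] at h ⊢
    have h6 : (a : ℤ) - (N : ℤ) ^ x ≠ 0 := by exact_mod_cast h
    rw [← Int.cast_abs]
    exact_mod_cast Int.one_le_abs h6
  have intc : (c : ℝ) - (N : ℝ) ^ z ≠ 0 → 1 ≤ |(c : ℝ) - (N : ℝ) ^ z| := by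
    intro h
    have h5 : ((((c : ℤ) - (N : ℤ) ^ z : ℤ)) : ℝ) = (c : ℝ) - (N : ℝ) ^ z := by push_cast; ring
    rw [← h5] at h ⊢
    have h6 : (c : ℤ) - (N : ℤ) ^ z ≠ 0 := by exact_mod_cast h
    rw [← Int.cast_abs]
    exact_mod_cast Int.one_le_abs h6
  have hua : |u| * (N : ℝ) ^ x = |(a : ℝ) - (N : ℝ) ^ x| := by
    rw [hu, abs_div, abs_of_pos hNx]; field_simp
  have hva : |v| * (N : ℝ) ^ z = |(c : ℝ) - (N : ℝ) ^ z| := by
    rw [hv, abs_div, abs_of_pos hNz]; field_simp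
  have hx'R : (1 : ℝ) ≤ x' := by exact_mod_cast hx'0
  have hz'R : (1 : ℝ) ≤ z' := by exact_mod_cast hz'0
  have hlR : (2 : ℝ) ≤ l := by exact_mod_cast hl
  have hkR : (2 : ℝ) ≤ k := by exact_mod_cast hk
  -- the main term is `α`
  have mainα : |(H - F) / (N : ℝ) ^ D - α| ≤ |α| / 20 → (c : ℝ) - (N : ℝ) ^ z ≠ 0 → False := by
    intro hm hs
    refine key hN (w := k * |(c : ℝ) - (N : ℝ) ^ z|) (e := D - z) hRpos ht1 hm ?_ ?_ ?_ e3 e4
    · rw [hαa, ← hva, hkt]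
      have h5 : (N : ℝ) ^ D = (N : ℝ) ^ z * (N : ℝ) ^ (D - z) := by
        rw [← pow_add]; congr 1; omega
      rw [h5]; push_cast; ring
    · exact two_le_mul hkR (intc hs)
    · have h5 : (k : ℝ) * |(c : ℝ) - (N : ℝ) ^ z| ≤ K * L :=
        mul_le_mul hkK hc (abs_nonneg _) (by linarith)
      linarith
  have mainβ : |(H - F) / (N : ℝ) ^ D - -β| ≤ |β| / 20 → (a : ℝ) - (N : ℝ) ^ x ≠ 0 → False := by
    intro hm hs
    rw [← abs_neg β] at hm
    refine key hN (w := l * |(a : ℝ) - (N : ℝ) ^ x|) (e := D - x) hRpos ht1 hm ?_ ?_ ?_ e3 e4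
    · rw [abs_neg, hβa, ← hua, ht]
      have h5 : (N : ℝ) ^ D = (N : ℝ) ^ x * (N : ℝ) ^ (D - x) := by
        rw [← pow_add]; congr 1; omega
      rw [h5]; push_cast; ring
    · exact two_le_mul hlR (inta hs)
    · have h5 : (l : ℝ) * |(a : ℝ) - (N : ℝ) ^ x| ≤ K * L :=
        mul_le_mul hlK ha (abs_nonneg _) (by linarith)
      linarith
  have hα0 := abs_nonneg α
  have hβ0 := abs_nonneg β
  have hex := abs_le.mp hexp
  rcases Nat.lt_trichotomy x z with hlt | heq | hgt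
  · -- x < z
    by_cases hi : (a : ℝ) - (N : ℝ) ^ x = 0
    · have hβz : β = 0 := by rw [hβ, hu, hi]; simp
      by_cases hs : (c : ℝ) - (N : ℝ) ^ z = 0
      · have hαz : α = 0 := by rw [hα, hv, hs]; simp
        rw [hαz, hβz] at hexp
        simp at hexp
        have : H - F = 0 := by
          rcases hexp with h | h
          · exact h
          · exact absurd h.1 (by omega)
        linarith
      · refine mainα ?_ hs
        rw [hβz] at hexp
        simp only [sub_zero, abs_zero] at hexp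
        have := sq_small hα0 hα1
        refine hexp.trans ?_
        linarith
    · refine mainβ ?_ hi
      have h5 : |α| ≤ |β| / 100 := by
        have h6 : |α| * (N : ℝ) ^ z ≤ N / 100 := by
          rw [hαa, mul_assoc, hva]
          exact (mul_le_mul hx'K hc (abs_nonneg _) (by linarith)).trans hKL
        have h7 : 1 ≤ |β| * (N : ℝ) ^ x := by
          rw [hβa, mul_assoc, hua]
          exact one_le_mul' hz'R (inta hi)
        have h8 : (N : ℝ) ^ (x + 1) ≤ (N : ℝ) ^ z := pow_le_pow_right₀ (by linarith) hlt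
        rw [pow_succ] at h8
        have h9 : |α| * ((N : ℝ) ^ x * N) ≤ N / 100 :=
          (mul_le_mul_of_nonneg_left h8 hα0).trans h6
        have h10 : |α| * (N : ℝ) ^ x ≤ 1 / 100 := by
          have h11 : (|α| * (N : ℝ) ^ x) * N ≤ (1 / 100) * N := by linarith
          exact le_of_mul_le_mul_right h11 hN0
        have h12 : |α| * (N : ℝ) ^ x ≤ (|β| / 100) * (N : ℝ) ^ x := by linarith
        exact le_of_mul_le_mul_right h12 hNx
      have e6 : (H - F) / (N : ℝ) ^ D - -β = ((H - F) / (N : ℝ) ^ D - (α - β)) + α := by ring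
      rw [e6]
      refine (abs_add_le _ _).trans ?_
      have h6 := sq_small hα0 hα1
      have h7 := sq_small hβ0 hβ1
      linarith
  · -- x = z
    have hx'z' : x' = z' := by
      have : x' * g = z' * g := by rw [← hx', ← hz']; exact heq
      exact Nat.eq_of_mul_eq_mul_right hg0 this
    have hx'1 : x' = 1 := by
      rw [← hx'z'] at hcop
      exact (Nat.coprime_self x').mp hcop
    have hz'1 : z' = 1 := by omega
    have hHc : H = c := by rw [hH, hx'1, pow_one]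
    have hFa : F = a := by rw [hF, hz'1, pow_one]
    have htk : t = k := by rw [hkt, hx'1, one_mul]
    have h5 : H - F ≤ 2 * L := by
      rw [hHc, hFa]
      rw [heq] at ha
      have := abs_le.mp ha
      have := abs_le.mp hc
      linarith
    have h6 : (t : ℝ) * (H - F) ≤ N / 50 := by
      rw [htk]
      have : (k : ℝ) * (H - F) ≤ K * (2 * L) := mul_le_mul hkK h5 hRpos.le (by linarith)
      linarith
    have h7 : 2 ≤ (t : ℝ) * (H - F) := by
      rw [htk]; exact two_le_mul hkR hR1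
    refine fin_contra hN (P := t * (H - F)) (w := t * (H - F)) (r := r) (e := 0) h7 (by linarith)
      ?_ ?_ ?_ ?_
    · have h8 : 0 < (N : ℝ) ^ r := by positivity
      linarith
    · have h8 : 0 < (N : ℝ) ^ r := by positivity
      linarith
    · rw [pow_zero, mul_one]; linarith
    · rw [pow_zero, mul_one]; linarith
  · -- z < x
    by_cases hs : (c : ℝ) - (N : ℝ) ^ z = 0
    · have hαz : α = 0 := by rw [hα, hv, hs]; simp
      by_cases hi : (a : ℝ) - (N : ℝ) ^ x = 0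
      · have hβz : β = 0 := by rw [hβ, hu, hi]; simp
        rw [hαz, hβz] at hexp
        simp at hexp
        have : H - F = 0 := by
          rcases hexp with h | h
          · exact h
          · exact absurd h.1 (by omega)
        linarith
      · refine mainβ ?_ hi
        rw [hαz] at hexp
        simp only [zero_sub, abs_zero] at hexp
        have := sq_small hβ0 hβ1
        refine hexp.trans ?_
        linarith
    · refine mainα ?_ hs
      have h5 : |β| ≤ |α| / 100 := by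
        have h6 : |β| * (N : ℝ) ^ x ≤ N / 100 := by
          rw [hβa, mul_assoc, hua]
          exact (mul_le_mul hz'K ha (abs_nonneg _) (by linarith)).trans hKL
        have h7 : 1 ≤ |α| * (N : ℝ) ^ z := by
          rw [hαa, mul_assoc, hva]
          exact one_le_mul' hx'R (intc hs)
        have h8 : (N : ℝ) ^ (z + 1) ≤ (N : ℝ) ^ x := pow_le_pow_right₀ (by linarith) hgt
        rw [pow_succ] at h8
        have h9 : |β| * ((N : ℝ) ^ z * N) ≤ N / 100 :=
          (mul_le_mul_of_nonneg_left h8 hβ0).trans h6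
        have h10 : |β| * (N : ℝ) ^ z ≤ 1 / 100 := by
          have h11 : (|β| * (N : ℝ) ^ z) * N ≤ (1 / 100) * N := by linarith
          exact le_of_mul_le_mul_right h11 hN0
        have h12 : |β| * (N : ℝ) ^ z ≤ (|α| / 100) * (N : ℝ) ^ z := by linarith
        exact le_of_mul_le_mul_right h12 hNz
      have e6 : (H - F) / (N : ℝ) ^ D - α = ((H - F) / (N : ℝ) ^ D - (α - β)) + -β := by ring
      rw [e6]
      refine (abs_add_le _ _).trans ?_
      rw [abs_neg]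
      have h6 := sq_small hα0 hα1
      have h7 := sq_small hβ0 hβ1
      linarith

end Pool.Agent.X5.FC
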