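import Mathlib
import Pool.Agent.X5.FC.Dom
import Pool.Agent.Y902.FB.ExR

/-!
No solutions of `a ^ m + b ^ n = c ^ k` with three bases near powers of a common large integer.
-/

set_option autoImplicit false

namespace Pool.Agent.X5.FC

theorem near_pow {N : ℕ} (hN : 4 ≤ N) {K L : ℝ} (hK : 1 ≤ K) (hKL : K * L ≤ N / 100)
    {a x m : ℕ} (hx : 1 ≤ x) (hmK : (m : ℝ) ≤ K) (ha : |(a : ℝ) - (N : ℝ) ^ x| ≤ L) :
    (49 / 50 : ℝ) * (N : ℝ) ^ (x * m) ≤ (a : ℝ) ^ m ∧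
      (a : ℝ) ^ m ≤ (51 / 50) * (N : ℝ) ^ (x * m) := by
  have hNR : (4 : ℝ) ≤ N := by exact_mod_cast hN
  obtain ⟨u, hu⟩ : ∃ u : ℝ, u = ((a : ℝ) - (N : ℝ) ^ x) / (N : ℝ) ^ x := ⟨_, rfl⟩
  have hNx : 0 < (N : ℝ) ^ x := by positivity
  have hau : (a : ℝ) = (N : ℝ) ^ x * (1 + u) := by rw [hu]; field_simp; ring
  have hNx1 : (N : ℝ) ≤ (N : ℝ) ^ x := le_self_pow₀ (by linarith) (by omega)
  have hKu : K * |u| ≤ 1 / 100 := by
    rw [hu, abs_div, abs_of_pos hNx, ← mul_div_assoc, div_le_iff₀ hNx]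
    calc K * |(a : ℝ) - (N : ℝ) ^ x| ≤ K * L := mul_le_mul_of_nonneg_left ha (by linarith)
      _ ≤ N / 100 := hKL
      _ ≤ 1 / 100 * (N : ℝ) ^ x := by linarith
  have h1 : (m : ℝ) * |u| ≤ 1 / 100 := (mul_le_mul_of_nonneg_right hmK (abs_nonneg u)).trans hKu
  obtain ⟨h2, h3⟩ := pow_near h1 (by norm_num)
  have hNp : 0 < (N : ℝ) ^ (x * m) := by positivity
  rw [hau, mul_pow, ← pow_mul]
  constructor
  · have := mul_le_mul_of_nonneg_left h2 hNp.le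
    linarith
  · have := mul_le_mul_of_nonneg_left h3 hNp.le
    linarith

theorem core {N : ℕ} (hN : 4 ≤ N) {K L : ℝ} (hL0 : 0 ≤ L) (hK : 1 ≤ K) (hKL : K * L ≤ N / 100)
    {a b c x y z m n k : ℕ} (ha0 : 0 < a) (hb0 : 0 < b) (hc0 : 0 < c)
    (hx : 1 ≤ x) (hy : 1 ≤ y) (hz : 1 ≤ z)
    (hm : 2 ≤ m) (hn : 2 ≤ n) (hk : 2 ≤ k)
    (hmK : (m : ℝ) ≤ K) (hnK : (n : ℝ) ≤ K) (hkK : (k : ℝ) ≤ K)
    (ha : |(a : ℝ) - (N : ℝ) ^ x| ≤ L) (hb : |(b : ℝ) - (N : ℝ) ^ y| ≤ L)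
    (hc : |(c : ℝ) - (N : ℝ) ^ z| ≤ L) (h : a ^ m + b ^ n = c ^ k) : False := by
  have hNR : (4 : ℝ) ≤ N := by exact_mod_cast hN
  obtain ⟨a1, a2⟩ := near_pow hN hK hKL hx hmK ha
  obtain ⟨b1, b2⟩ := near_pow hN hK hKL hy hnK hb
  obtain ⟨c1, c2⟩ := near_pow hN hK hKL hz hkK hc
  have hR : (a : ℝ) ^ m + (b : ℝ) ^ n = (c : ℝ) ^ k := by exact_mod_cast h
  have ham : 0 < (a : ℝ) ^ m := pow_pos (by exact_mod_cast ha0) _
  have hbn : 0 < (b : ℝ) ^ n := pow_pos (by exact_mod_cast hb0) _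
  have up : ∀ e f : ℕ, f < e → (N : ℝ) ^ f * 4 ≤ (N : ℝ) ^ e := by
    intro e f hef
    have h1 : (N : ℝ) ^ (f + 1) ≤ (N : ℝ) ^ e := pow_le_pow_right₀ (by linarith) hef
    rw [pow_succ] at h1
    have h2 : 0 < (N : ℝ) ^ f := by positivity
    have h3 : (N : ℝ) ^ f * 4 ≤ (N : ℝ) ^ f * N := mul_le_mul_of_nonneg_left hNR h2.le
    linarith
  have hp := pow_pos (show (0 : ℝ) < N by linarith) (x * m)
  have hq := pow_pos (show (0 : ℝ) < N by linarith) (y * n)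
  have hr := pow_pos (show (0 : ℝ) < N by linarith) (z * k)
  have hpr : x * m ≤ z * k := by
    by_contra hcon
    push Not at hcon
    have := up _ _ hcon
    linarith
  have hqr : y * n ≤ z * k := by
    by_contra hcon
    push Not at hcon
    have := up _ _ hcon
    linarith
  rcases Nat.lt_or_ge (x * m) (z * k) with h1 | h1
  · rcases Nat.lt_or_ge (y * n) (z * k) with h2 | h2
    · have g1 := up _ _ h1
      have g2 := up _ _ h2
      linarith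
    · have h3 : y * n = z * k := le_antisymm hqr h2
      exact dom hN hL0 hK hKL hb0 hc0 hy hz hn hk hnK hkK hb hc h3 (B := (a : ℝ) ^ m)
        (by linarith) ham a1 a2
  · have h3 : x * m = z * k := le_antisymm hpr h1
    exact dom hN hL0 hK hKL ha0 hc0 hx hz hm hk hmK hkK ha hc h3 (B := (b : ℝ) ^ n)
        (by linarith) hbn b1 b2

/-- Three bases within `N ^ δ` of powers `N ^ x`, `N ^ y`, `N ^ z` with `x, y, z ≤ N ^ γ`, `N` large. -/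
theorem no_solutions (δ : ℝ) (hδ : δ < 1) : ∃ γ : ℝ, 0 < γ ∧ ∃ N₀ : ℕ, ∀ N : ℕ, N₀ ≤ N →
    ∀ x y z : ℕ, 1 ≤ x → 1 ≤ y → 1 ≤ z → (x : ℝ) ≤ (N : ℝ) ^ γ → (y : ℝ) ≤ (N : ℝ) ^ γ →
    (z : ℝ) ≤ (N : ℝ) ^ γ → ∀ a b c m n k : ℕ,
    |(a : ℝ) - (N : ℝ) ^ x| ≤ (N : ℝ) ^ δ → |(b : ℝ) - (N : ℝ) ^ y| ≤ (N : ℝ) ^ δ →
    |(c : ℝ) - (N : ℝ) ^ z| ≤ (N : ℝ) ^ δ → Nat.Coprime a b → Nat.Coprime a c → Nat.Coprime b c →
    2 ≤ m → 2 ≤ n → 2 ≤ k → a ^ m + b ^ n ≠ c ^ k := by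
  obtain ⟨C, κ, hC, hbound⟩ := Pool.Agent.Y902.FB.exp_bound_real
  -- we may take a nonnegative exponent
  obtain ⟨d, hd⟩ : ∃ d : ℝ, d = max δ 0 := ⟨_, rfl⟩
  have hd0 : 0 ≤ d := by rw [hd]; exact le_max_right _ _
  have hd1 : d < 1 := by rw [hd]; exact max_lt hδ one_pos
  have hδd : δ ≤ d := by rw [hd]; exact le_max_left _ _
  obtain ⟨g, hg⟩ : ∃ g : ℝ, g = (1 - d) / 2 := ⟨_, rfl⟩
  have hg0 : 0 < g := by rw [hg]; linarith
  obtain ⟨γ, hγ⟩ : ∃ γ : ℝ, γ = g / (8 * (κ + 1)) := ⟨_, rfl⟩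
  have hκ0 : (0 : ℝ) ≤ κ := Nat.cast_nonneg κ
  have hγ0 : 0 < γ := by rw [hγ]; positivity
  refine ⟨γ, hγ0, ?_⟩
  -- eventual inequalities
  have ev1 : ∀ᶠ N : ℕ in Filter.atTop, (2 : ℝ) * Real.log N ≤ (N : ℝ) ^ γ := by
    have h1 := (isLittleO_log_rpow_atTop hγ0).bound (show (0 : ℝ) < 1 / 2 by norm_num)
    have h2 := tendsto_natCast_atTop_atTop.eventually h1
    filter_upwards [h2, Filter.eventually_ge_atTop 1] with N hN hN1
    have hNR : (1 : ℝ) ≤ N := by exact_mod_cast hN1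
    rw [Real.norm_of_nonneg (Real.log_nonneg hNR), Real.norm_of_nonneg (by positivity)] at hN
    linarith
  have ev2 : ∀ᶠ N : ℕ in Filter.atTop, C + 1 ≤ (N : ℝ) ^ (g / 4) := by
    have h1 : Filter.Tendsto (fun N : ℕ => (N : ℝ) ^ (g / 4)) Filter.atTop Filter.atTop :=
      (tendsto_rpow_atTop (by positivity)).comp tendsto_natCast_atTop_atTop
    exact h1.eventually_ge_atTop _
  have ev3 : ∀ᶠ N : ℕ in Filter.atTop, (100 : ℝ) ≤ (N : ℝ) ^ g := by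
    have h1 : Filter.Tendsto (fun N : ℕ => (N : ℝ) ^ g) Filter.atTop Filter.atTop :=
      (tendsto_rpow_atTop hg0).comp tendsto_natCast_atTop_atTop
    exact h1.eventually_ge_atTop _
  obtain ⟨N₀, hN₀⟩ := Filter.eventually_atTop.mp (ev1.and (ev2.and ev3))
  refine ⟨max N₀ 4, ?_⟩
  intro N hN x y z hx hy hz hxγ hyγ hzγ a b c m n k ha hb hc hab hac hbc hm hn hk heq
  obtain ⟨e1, e2, e3⟩ := hN₀ N ((le_max_left _ _).trans hN)
  have hN4 : 4 ≤ N := (le_max_right _ _).trans hN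
  have hNR : (4 : ℝ) ≤ N := by exact_mod_cast hN4
  have hN1 : (1 : ℝ) ≤ N := by linarith
  have hN0 : (0 : ℝ) < N := by linarith
  obtain ⟨L, hL⟩ : ∃ L : ℝ, L = (N : ℝ) ^ d := ⟨_, rfl⟩
  have hL1 : 1 ≤ L := by rw [hL]; exact Real.one_le_rpow hN1 hd0
  have hδL : (N : ℝ) ^ δ ≤ L := by rw [hL]; exact Real.rpow_le_rpow_of_exponent_le hN1 hδd
  obtain ⟨K, hK⟩ : ∃ K : ℝ, K = (N : ℝ) ^ (g / 2) := ⟨_, rfl⟩
  have hK1 : 1 ≤ K := by rw [hK]; exact Real.one_le_rpow hN1 (by positivity)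
  have hLN : 100 * L ≤ N := by
    have h1 : (N : ℝ) ^ g * (N : ℝ) ^ d ≤ (N : ℝ) ^ (1 : ℝ) := by
      rw [← Real.rpow_add hN0]
      exact Real.rpow_le_rpow_of_exponent_le hN1 (by rw [hg]; linarith)
    rw [Real.rpow_one] at h1
    rw [hL]
    have h2 : 0 < (N : ℝ) ^ d := by positivity
    nlinarith
  have hKL : K * L ≤ N / 100 := by
    have h1 : (N : ℝ) ^ g * ((N : ℝ) ^ (g / 2) * (N : ℝ) ^ d) ≤ (N : ℝ) ^ (1 : ℝ) := by
      rw [← Real.rpow_add hN0, ← Real.rpow_add hN0]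
      exact Real.rpow_le_rpow_of_exponent_le hN1 (by rw [hg]; linarith)
    rw [Real.rpow_one, ← hK, ← hL] at h1
    have h2 : 0 < K * L := by positivity
    have h3 : 100 * (K * L) ≤ (N : ℝ) ^ g * (K * L) := mul_le_mul_of_nonneg_right e3 h2.le
    linarith
  -- sizes of the bases
  have base : ∀ (a x : ℕ), 1 ≤ x → (x : ℝ) ≤ (N : ℝ) ^ γ → |(a : ℝ) - (N : ℝ) ^ x| ≤ L →
      2 ≤ a ∧ Real.log a ≤ (N : ℝ) ^ (2 * γ) := by
    intro a x hx hxγ ha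
    have h1 := abs_le.mp ha
    have hNx1 : (N : ℝ) ≤ (N : ℝ) ^ x := le_self_pow₀ hN1 (by omega)
    have h2 : (2 : ℝ) ≤ a := by linarith [h1.1]
    have h2' : 2 ≤ a := by exact_mod_cast h2
    refine ⟨h2', ?_⟩
    have h3 : (a : ℝ) ≤ (N : ℝ) ^ (x + 1) := by
      rw [pow_succ]
      have h4 : (0 : ℝ) < (N : ℝ) ^ x := by positivity
      have h5 : (N : ℝ) ^ x * 4 ≤ (N : ℝ) ^ x * N := mul_le_mul_of_nonneg_left hNR h4.le
      linarith [h1.2]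
    have h4 : Real.log a ≤ (x + 1 : ℕ) * Real.log N := by
      have := Real.log_le_log (by linarith) h3
      rwa [Real.log_pow] at this
    have hlog : 0 ≤ Real.log N := Real.log_nonneg hN1
    have h5 : ((x + 1 : ℕ) : ℝ) ≤ 2 * (N : ℝ) ^ γ := by
      push_cast
      have : (1 : ℝ) ≤ (N : ℝ) ^ γ := Real.one_le_rpow hN1 hγ0.le
      linarith
    calc Real.log a ≤ (x + 1 : ℕ) * Real.log N := h4
      _ ≤ (2 * (N : ℝ) ^ γ) * Real.log N := mul_le_mul_of_nonneg_right h5 hlog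
      _ = (N : ℝ) ^ γ * (2 * Real.log N) := by ring
      _ ≤ (N : ℝ) ^ γ * (N : ℝ) ^ γ := mul_le_mul_of_nonneg_left e1 (by positivity)
      _ = (N : ℝ) ^ (2 * γ) := by rw [← Real.rpow_add hN0]; congr 1; ring
  have ha' := ha.trans hδL
  have hb' := hb.trans hδL
  have hc' := hc.trans hδL
  obtain ⟨a2, la⟩ := base a x hx hxγ ha'
  obtain ⟨b2, lb⟩ := base b y hy hyγ hb'
  obtain ⟨c2, lc⟩ := base c z hz hzγ hc'
  have hmax : Real.log ((max a (max b c) : ℕ) : ℝ) ≤ (N : ℝ) ^ (2 * γ) := by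
    rcases max_choice a (max b c) with h | h
    · rw [h]; exact la
    · rw [h]
      rcases max_choice b c with h' | h'
      · rw [h']; exact lb
      · rw [h']; exact lc
  have hmax0 : 0 ≤ Real.log ((max a (max b c) : ℕ) : ℝ) := by
    apply Real.log_nonneg
    exact_mod_cast (show 1 ≤ max a (max b c) from (by omega : 1 ≤ a).trans (le_max_left _ _))
  have hbd : C * Real.log ((max a (max b c) : ℕ) : ℝ) ^ κ ≤ K := by
    have h1 : Real.log ((max a (max b c) : ℕ) : ℝ) ^ κ ≤ ((N : ℝ) ^ (2 * γ)) ^ κ :=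
      pow_le_pow_left₀ hmax0 hmax κ
    have h2 : ((N : ℝ) ^ (2 * γ)) ^ κ ≤ (N : ℝ) ^ (g / 4) := by
      rw [← Real.rpow_natCast, ← Real.rpow_mul hN0.le]
      apply Real.rpow_le_rpow_of_exponent_le hN1
      have hx : 2 * γ * κ = (g / 4) * (κ / (κ + 1)) := by rw [hγ]; field_simp; ring
      have h3 : (κ : ℝ) / (κ + 1) ≤ 1 := by
        rw [div_le_one (by positivity)]; linarith
      rw [hx]
      calc (g / 4) * (κ / (κ + 1)) ≤ (g / 4) * 1 := mul_le_mul_of_nonneg_left h3 (by positivity)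
        _ = g / 4 := by ring
    calc C * Real.log ((max a (max b c) : ℕ) : ℝ) ^ κ
        ≤ (C + 1) * Real.log ((max a (max b c) : ℕ) : ℝ) ^ κ := by
          apply mul_le_mul_of_nonneg_right (by linarith) (pow_nonneg hmax0 _)
      _ ≤ (N : ℝ) ^ (g / 4) * (N : ℝ) ^ (g / 4) :=
          mul_le_mul e2 (h1.trans h2) (pow_nonneg hmax0 _) (by positivity)
      _ = K := by rw [hK, ← Real.rpow_add hN0]; congr 1; ring
  obtain ⟨k1, k2, k3⟩ := hbound a b c m n k (by omega) (by omega) (by omega) hab hac hbc hm hn hk heq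
  exact core hN4 (by linarith) hK1 hKL (by omega) (by omega) (by omega) hx hy hz hm hn hk
    ((k1 a2).trans hbd) ((k2 b2).trans hbd) (k3.trans hbd) ha' hb' hc' heq

end Pool.Agent.X5.FC
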