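import Mathlib

/-!
Integer polynomials as bases in the Fermat-Catalan equation: common factors, and the polynomial
identity.
-/

set_option autoImplicit false

namespace Pool.Agent.X5.FC

open Polynomial

theorem common_factor {f g : ℤ[X]} (hf : f ≠ 0)
    (h : ¬ IsCoprime (f.map (Int.castRingHom ℚ)) (g.map (Int.castRingHom ℚ))) :
    ∃ q : ℤ[X], 0 < q.natDegree ∧ q ∣ f ∧ q ∣ g := by
  classical
  have hinj : Function.Injective (Int.castRingHom ℚ) := (Int.castRingHom ℚ).injective_int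
  have hf' : f.map (Int.castRingHom ℚ) ≠ 0 := (Polynomial.map_ne_zero_iff hinj).mpr hf
  have hex : ∃ z : ℚ[X], Irreducible z ∧ z ∣ f.map (Int.castRingHom ℚ) ∧
      z ∣ g.map (Int.castRingHom ℚ) := by
    by_contra hcon
    push Not at hcon
    exact h (isCoprime_of_irreducible_dvd (fun h0 => hf' h0.1) (fun z hz h1 h2 => hcon z hz h1 h2))
  obtain ⟨z, hz, hzf, hzg⟩ := hex
  obtain ⟨b, hb, hbz⟩ := IsLocalization.integerNormalization_spec (nonZeroDivisors ℤ) z
  set Z := IsLocalization.integerNormalization (nonZeroDivisors ℤ) z with hZ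
  have hb0 : (b : ℤ) ≠ 0 := nonZeroDivisors.ne_zero hb
  have hbz' : Z.map (Int.castRingHom ℚ) = C (b : ℚ) * z := by
    have h1 : (algebraMap ℤ ℚ) = Int.castRingHom ℚ := rfl
    rw [← h1, hbz]
    rw [← Polynomial.smul_eq_C_mul]
    rw [← Int.cast_smul_eq_zsmul ℚ]
  have hbQ : (b : ℚ) ≠ 0 := by exact_mod_cast hb0
  have hdegZ : Z.natDegree = z.natDegree := by
    rw [← natDegree_map_eq_of_injective hinj, hbz', natDegree_C_mul hbQ]
  refine ⟨Z.primPart, ?_, ?_, ?_⟩
  · rw [natDegree_primPart, hdegZ]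
    exact hz.natDegree_pos
  all_goals
    rw [IsPrimitive.Int.dvd_iff_map_cast_dvd_map_cast _ _ (isPrimitive_primPart Z)]
  · have h1 : Z.primPart.map (Int.castRingHom ℚ) ∣ Z.map (Int.castRingHom ℚ) :=
      Polynomial.map_dvd _ Z.primPart_dvd
    rw [hbz'] at h1
    refine h1.trans ?_
    obtain ⟨w, hw⟩ := hzf
    refine ⟨C (b : ℚ)⁻¹ * w, ?_⟩
    rw [hw]
    calc z * w = (C (b : ℚ) * C (b : ℚ)⁻¹) * (z * w) := by
          rw [← C_mul, mul_inv_cancel₀ hbQ, C_1, one_mul]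
      _ = _ := by ring
  · have h1 : Z.primPart.map (Int.castRingHom ℚ) ∣ Z.map (Int.castRingHom ℚ) :=
      Polynomial.map_dvd _ Z.primPart_dvd
    rw [hbz'] at h1
    refine h1.trans ?_
    obtain ⟨w, hw⟩ := hzg
    refine ⟨C (b : ℚ)⁻¹ * w, ?_⟩
    rw [hw]
    calc z * w = (C (b : ℚ) * C (b : ℚ)⁻¹) * (z * w) := by
          rw [← C_mul, mul_inv_cancel₀ hbQ, C_1, one_mul]
      _ = _ := by ring

theorem roots_ncard {P : ℤ[X]} (hP : P ≠ 0) :
    {n : ℤ | P.eval n = 0}.Finite ∧ {n : ℤ | P.eval n = 0}.ncard ≤ P.natDegree := by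
  classical
  have h : {n : ℤ | P.eval n = 0} = (P.roots.toFinset : Set ℤ) := by
    ext n
    simp [hP]
  rw [h]
  refine ⟨Finset.finite_toSet _, ?_⟩
  rw [Set.ncard_coe_finset]
  exact (Multiset.toFinset_card_le _).trans (card_roots' P)

theorem coprime_count {f g : ℤ[X]} (hf : f ≠ 0)
    (h : ¬ IsCoprime (f.map (Int.castRingHom ℚ)) (g.map (Int.castRingHom ℚ))) :
    {n : ℤ | IsCoprime (f.eval n) (g.eval n)}.Finite ∧
      {n : ℤ | IsCoprime (f.eval n) (g.eval n)}.ncard ≤ 2 * f.natDegree := by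
  obtain ⟨q, hq0, ⟨f', hf'⟩, ⟨g', hg'⟩⟩ := common_factor hf h
  have hqf : q.natDegree ≤ f.natDegree := natDegree_le_of_dvd ⟨f', hf'⟩ hf
  have h1 : q - C 1 ≠ 0 := by
    intro h0
    have : q = C 1 := sub_eq_zero.mp h0
    rw [this, natDegree_C] at hq0
    exact absurd hq0 (lt_irrefl _)
  have h2 : q - C (-1) ≠ 0 := by
    intro h0
    have : q = C (-1) := sub_eq_zero.mp h0
    rw [this, natDegree_C] at hq0
    exact absurd hq0 (lt_irrefl _)
  obtain ⟨a1, a2⟩ := roots_ncard h1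
  obtain ⟨b1, b2⟩ := roots_ncard h2
  have hsub : {n : ℤ | IsCoprime (f.eval n) (g.eval n)} ⊆
      {n : ℤ | (q - C 1).eval n = 0} ∪ {n : ℤ | (q - C (-1)).eval n = 0} := by
    intro n hn
    have hn' : IsCoprime (f.eval n) (g.eval n) := hn
    rw [hf', hg', eval_mul, eval_mul] at hn'
    have hu : IsUnit (q.eval n) := hn'.isUnit_of_dvd' (Dvd.intro _ rfl) (Dvd.intro _ rfl)
    rw [Int.isUnit_iff] at hu
    rcases hu with hu | hu
    · left
      change (q - C 1).eval n = 0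
      rw [eval_sub, eval_C, hu]; norm_num
    · right
      change (q - C (-1)).eval n = 0
      rw [eval_sub, eval_C, hu]; norm_num
  refine ⟨(a1.union b1).subset hsub, ?_⟩
  rw [natDegree_sub_C] at a2 b2
  calc _ ≤ ({n : ℤ | (q - C (1 : ℤ)).eval n = 0} ∪ {n : ℤ | (q - C (-1 : ℤ)).eval n = 0}).ncard :=
        Set.ncard_le_ncard hsub (a1.union b1)
    _ ≤ _ := Set.ncard_union_le _ _
    _ ≤ 2 * f.natDegree := by omega

theorem poly_ne_zero {f g h : ℤ[X]} (hf : f ≠ 0) (hg : g ≠ 0) (hh : h ≠ 0)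
    (hdeg : 0 < f.natDegree ∨ 0 < g.natDegree ∨ 0 < h.natDegree)
    (hcop : IsCoprime (f.map (Int.castRingHom ℚ)) (g.map (Int.castRingHom ℚ)))
    {m n k : ℕ} (hm : 0 < m) (hn : 0 < n) (hk : 0 < k)
    (hyp : n * k + k * m + m * n ≤ m * n * k) {s t r : ℤ} (hs : s ≠ 0) (ht : t ≠ 0) (hr : r ≠ 0) :
    C s * f ^ m + C t * g ^ n + C r * h ^ k ≠ 0 := by
  classical
  intro h0
  have hinj : Function.Injective (Int.castRingHom ℚ) := (Int.castRingHom ℚ).injective_int
  have h1 : (C s * f ^ m + C t * g ^ n + C r * h ^ k).map (Int.castRingHom ℚ) = 0 := by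
    rw [h0, Polynomial.map_zero]
  rw [Polynomial.map_add, Polynomial.map_add, Polynomial.map_mul, Polynomial.map_mul,
    Polynomial.map_mul, Polynomial.map_pow, Polynomial.map_pow, Polynomial.map_pow, map_C, map_C,
    map_C] at h1
  have h2 := Polynomial.flt_catalan hm.ne' hn.ne' hk.ne' hyp
    (by exact_mod_cast hm.ne' : (m : ℚ) ≠ 0) (by exact_mod_cast hn.ne' : (n : ℚ) ≠ 0)
    (by exact_mod_cast hk.ne' : (k : ℚ) ≠ 0) ((Polynomial.map_ne_zero_iff hinj).mpr hf)
    ((Polynomial.map_ne_zero_iff hinj).mpr hg) ((Polynomial.map_ne_zero_iff hinj).mpr hh) hcop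
    (by simpa using hs) (by simpa using ht) (by simpa using hr) h1
  rw [natDegree_map_eq_of_injective hinj, natDegree_map_eq_of_injective hinj,
    natDegree_map_eq_of_injective hinj] at h2
  omega

end Pool.Agent.X5.FC
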