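import Mathlib
import Pool.Agent.X5.FC.Poly
import Pool.Agent.Y902.FB.ExR

/-!
Three polynomial bases in the Fermat-Catalan equation: at most a power of `log N` of the integers up
to `N` are exceptional.
-/

set_option autoImplicit false

namespace Pool.Agent.X5.FC

open Polynomial

/-- A solution with `1/m + 1/n + 1/k ≤ 1`. -/
def Sol (a b c m n k : ℕ) : Prop :=
  0 < a ∧ 0 < b ∧ 0 < c ∧ Nat.Coprime a b ∧ Nat.Coprime a c ∧ Nat.Coprime b c ∧
    0 < m ∧ 0 < n ∧ 0 < k ∧ n * k + k * m + m * n ≤ m * n * k ∧ a ^ m + b ^ n = c ^ k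

theorem Sol.two_le {a b c m n k : ℕ} (h : Sol a b c m n k) : 2 ≤ m ∧ 2 ≤ n ∧ 2 ≤ k := by
  obtain ⟨-, -, -, -, -, -, hm, hn, hk, hyp, -⟩ := h
  refine ⟨?_, ?_, ?_⟩
  · by_contra hcon
    have : m = 1 := by omega
    subst this
    have : 0 < k * 1 := by omega
    nlinarith
  · by_contra hcon
    have : n = 1 := by omega
    subst this
    nlinarith
  · by_contra hcon
    have : k = 1 := by omega
    subst this
    nlinarith

theorem seven {n k m : ℕ} (hn : 2 ≤ n) (hk : 2 ≤ k) (hyp : n * k + k * m + m * n ≤ m * n * k) :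
    n * k + k * 7 + 7 * n ≤ 7 * n * k := by
  rcases Nat.lt_or_ge n 3 with h1 | h1
  · have hn2 : n = 2 := by omega
    subst hn2
    rcases Nat.lt_or_ge k 3 with h2 | h2
    · have hk2 : k = 2 := by omega
      subst hk2
      omega
    · omega
  · rcases Nat.lt_or_ge k 3 with h2 | h2
    · have hk2 : k = 2 := by omega
      subst hk2
      omega
    · nlinarith [Nat.mul_le_mul h1 h2]

/-- replacing the exponent of a base `1` -/
theorem norm_exps {a b c m n k E : ℕ} (hs : Sol a b c m n k) (hmE : 2 ≤ a → m ≤ E)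
    (hnE : 2 ≤ b → n ≤ E) (hkE : k ≤ E) (h7 : 7 ≤ E) :
    ∃ m' n' : ℕ, 0 < m' ∧ 0 < n' ∧ 0 < k ∧ m' ≤ E ∧ n' ≤ E ∧ k ≤ E ∧
      (n' * k + k * m' + m' * n' ≤ m' * n' * k) ∧ a ^ m' + b ^ n' = c ^ k := by
  obtain ⟨h2m, h2n, h2k⟩ := hs.two_le
  obtain ⟨ha, hb, hc, -, -, -, hm, hn, hk, hyp, heq⟩ := hs
  rcases Nat.lt_or_ge a 2 with h1 | h1
  · have ha1 : a = 1 := by omega
    rcases Nat.lt_or_ge b 2 with h2 | h2
    · have hb1 : b = 1 := by omega
      exfalso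
      rw [ha1, hb1, one_pow, one_pow] at heq
      have hc2 : 2 ≤ c := by
        by_contra hcon
        have : c = 1 := by omega
        rw [this, one_pow] at heq
        omega
      have : 2 ^ 2 ≤ c ^ k := (Nat.pow_le_pow_left hc2 2).trans (Nat.pow_le_pow_right (by omega) h2k)
      omega
    · refine ⟨7, n, by norm_num, hn, hk, h7, hnE h2, hkE, seven h2n h2k hyp, ?_⟩
      rw [ha1, one_pow] at heq ⊢
      exact heq
  · rcases Nat.lt_or_ge b 2 with h2 | h2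
    · have hb1 : b = 1 := by omega
      refine ⟨m, 7, hm, by norm_num, hk, hmE h1, h7, hkE, ?_, ?_⟩
      · have := seven (n := m) (k := k) (m := n) h2m h2k (by nlinarith)
        nlinarith
      · rw [hb1, one_pow] at heq ⊢
        exact heq
    · exact ⟨m, n, hm, hn, hk, hmE h1, hnE h2, hkE, hyp, heq⟩

theorem natAbs_pow_sign (u : ℤ) (m : ℕ) : ∃ s : Bool,
    (((u.natAbs ^ m : ℕ)) : ℤ) = (if s then 1 else -1) * u ^ m := by
  rcases Int.natAbs_eq u with h | h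
  · refine ⟨true, ?_⟩
    push_cast
    rw [if_pos rfl, one_mul]
    conv_rhs => rw [h]
    simp
  · rcases Nat.even_or_odd m with hm | hm
    · refine ⟨true, ?_⟩
      rw [if_pos rfl, one_mul]
      conv_rhs => rw [h]
      rw [hm.neg_pow]
      push_cast
      simp
    · refine ⟨false, ?_⟩
      rw [if_neg (by simp)]
      conv_rhs => rw [h]
      rw [hm.neg_pow]
      push_cast
      simp

/-- the polynomial attached to exponents and signs -/
noncomputable def PP (f g h : ℤ[X]) (j : ℕ × ℕ × ℕ × Bool × Bool) : ℤ[X] :=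
  C (if j.2.2.2.1 then 1 else -1) * f ^ j.1 + C (if j.2.2.2.2 then 1 else -1) * g ^ j.2.1 +
    C (-1) * h ^ j.2.2.1

/-- the exceptional integers, in a fixed order -/
def Exc (f g h : ℤ[X]) (N : ℕ) : Set ℤ :=
  {x | |x| ≤ N ∧ ∃ m n k : ℕ, Sol (f.eval x).natAbs (g.eval x).natAbs (h.eval x).natAbs m n k}

theorem Exc_finite (f g h : ℤ[X]) (N : ℕ) : (Exc f g h N).Finite :=
  (Set.finite_Icc (-(N : ℤ)) N).subset fun _ hx => abs_le.mp hx.1

theorem eval_bound {f : ℤ[X]} {D H N : ℕ} (hD : f.natDegree ≤ D) (hH : ∀ i, |f.coeff i| ≤ H)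
    {x : ℤ} (hx : |x| ≤ N) : (f.eval x).natAbs ≤ ((H + 2) * (N + 2)) ^ (D + 1) := by
  have h1 : |f.eval x| ≤ ∑ i ∈ Finset.range (f.natDegree + 1), ((H : ℤ) * ((N : ℤ) + 1) ^ D) := by
    rw [eval_eq_sum_range]
    refine (Finset.abs_sum_le_sum_abs _ _).trans (Finset.sum_le_sum fun i hi => ?_)
    rw [abs_mul, abs_pow]
    have h2 : |x| ^ i ≤ ((N : ℤ) + 1) ^ D := by
      calc |x| ^ i ≤ ((N : ℤ) + 1) ^ i := pow_le_pow_left₀ (abs_nonneg x) (by linarith) i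
        _ ≤ ((N : ℤ) + 1) ^ D := pow_le_pow_right₀ (by linarith [Int.natCast_nonneg N])
            (by have := Finset.mem_range.mp hi; omega)
    exact mul_le_mul (hH i) h2 (by positivity) (by positivity)
  rw [Finset.sum_const, Finset.card_range, nsmul_eq_mul] at h1
  have h3 : (((f.eval x).natAbs : ℕ) : ℤ) ≤ (((f.natDegree + 1) * (H * (N + 1) ^ D) : ℕ) : ℤ) := by
    rw [Int.natCast_natAbs]
    push_cast
    push_cast at h1
    exact h1
  have h4 : (f.eval x).natAbs ≤ (f.natDegree + 1) * (H * (N + 1) ^ D) := by exact_mod_cast h3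
  have h5 : f.natDegree + 1 ≤ (H + 2) ^ D := by
    calc f.natDegree + 1 ≤ D + 1 := by omega
      _ ≤ 2 ^ D := Nat.lt_pow_self (by norm_num)
      _ ≤ (H + 2) ^ D := Nat.pow_le_pow_left (by omega) D
  calc (f.eval x).natAbs ≤ (f.natDegree + 1) * (H * (N + 1) ^ D) := h4
    _ ≤ (H + 2) ^ D * ((H + 2) * (N + 2) ^ (D + 1)) := by
        apply Nat.mul_le_mul h5
        apply Nat.mul_le_mul (by omega)
        calc (N + 1) ^ D ≤ (N + 2) ^ D := Nat.pow_le_pow_left (by omega) D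
          _ ≤ (N + 2) ^ (D + 1) := Nat.pow_le_pow_right (by omega) (by omega)
    _ = ((H + 2) * (N + 2)) ^ (D + 1) := by rw [mul_pow]; ring

theorem PP_natDegree {f g h : ℤ[X]} {D E : ℕ} (hf : f.natDegree ≤ D) (hg : g.natDegree ≤ D)
    (hh : h.natDegree ≤ D) {j : ℕ × ℕ × ℕ × Bool × Bool} (h1 : j.1 ≤ E) (h2 : j.2.1 ≤ E)
    (h3 : j.2.2.1 ≤ E) : (PP f g h j).natDegree ≤ E * D := by
  unfold PP
  have key : ∀ (u : ℤ) (p : ℤ[X]) (m : ℕ), p.natDegree ≤ D → m ≤ E →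
      (C u * p ^ m).natDegree ≤ E * D := by
    intro u p m hp hm
    calc (C u * p ^ m).natDegree ≤ (p ^ m).natDegree := natDegree_C_mul_le _ _
      _ ≤ m * p.natDegree := natDegree_pow_le
      _ ≤ E * D := Nat.mul_le_mul hm hp
  refine (natDegree_add_le _ _).trans (max_le ((natDegree_add_le _ _).trans (max_le ?_ ?_)) ?_)
  · exact key _ _ _ hf h1
  · exact key _ _ _ hg h2
  · exact key _ _ _ hh h3

theorem ordered_count {f g h : ℤ[X]} {D E N : ℕ} (hfD : f.natDegree ≤ D) (hgD : g.natDegree ≤ D)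
    (hhD : h.natDegree ≤ D) (hdeg : 0 < f.natDegree ∨ 0 < g.natDegree ∨ 0 < h.natDegree)
    (h7 : 7 ≤ E)
    (hE : ∀ x : ℤ, |x| ≤ N → ∀ m n k : ℕ,
      Sol (f.eval x).natAbs (g.eval x).natAbs (h.eval x).natAbs m n k →
      (2 ≤ (f.eval x).natAbs → m ≤ E) ∧ (2 ≤ (g.eval x).natAbs → n ≤ E) ∧ k ≤ E) :
    (Exc f g h N).ncard ≤ 2 * D + 4 * (E * (E * E)) * (E * D) := by
  classical
  by_cases hz : f = 0 ∨ g = 0 ∨ h = 0
  · have hemp : Exc f g h N = ∅ := by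
      ext x
      simp only [Set.mem_empty_iff_false, iff_false]
      rintro ⟨-, m, n, k, ha, hb, hc, -⟩
      rcases hz with hz | hz | hz
      · rw [hz, eval_zero] at ha; simp at ha
      · rw [hz, eval_zero] at hb; simp at hb
      · rw [hz, eval_zero] at hc; simp at hc
    rw [hemp, Set.ncard_empty]
    exact Nat.zero_le _
  push Not at hz
  obtain ⟨hf, hg, hh⟩ := hz
  by_cases hcop : IsCoprime (f.map (Int.castRingHom ℚ)) (g.map (Int.castRingHom ℚ))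
  · -- coprime polynomials
    obtain ⟨J, hJ⟩ : ∃ J : Finset (ℕ × ℕ × ℕ × Bool × Bool), J =
        Finset.Icc 1 E ×ˢ Finset.Icc 1 E ×ˢ Finset.Icc 1 E ×ˢ Finset.univ ×ˢ Finset.univ :=
      ⟨_, rfl⟩
    have hJc : J.card = 4 * (E * (E * E)) := by
      rw [hJ]
      simp only [Finset.card_product, Nat.card_Icc, Nat.add_sub_cancel, Finset.card_univ,
        Fintype.card_bool]
      ring
    obtain ⟨W, hW⟩ : ∃ W : (ℕ × ℕ × ℕ × Bool × Bool) → Set ℤ, W = fun j =>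
        {x : ℤ | (j.2.1 * j.2.2.1 + j.2.2.1 * j.1 + j.1 * j.2.1 ≤ j.1 * j.2.1 * j.2.2.1) ∧
          (PP f g h j).eval x = 0} := ⟨_, rfl⟩
    have hWc : ∀ j ∈ J, (W j).Finite ∧ (W j).ncard ≤ E * D := by
      intro j hj
      rw [hJ] at hj
      simp only [Finset.mem_product, Finset.mem_Icc, Finset.mem_univ, and_true] at hj
      obtain ⟨⟨j1, j1'⟩, ⟨j2, j2'⟩, ⟨j3, j3'⟩⟩ := hj
      by_cases hyp : j.2.1 * j.2.2.1 + j.2.2.1 * j.1 + j.1 * j.2.1 ≤ j.1 * j.2.1 * j.2.2.1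
      · have hne : PP f g h j ≠ 0 := by
          unfold PP
          refine poly_ne_zero hf hg hh hdeg hcop (by omega) (by omega) (by omega) hyp ?_ ?_
            (by norm_num)
          · split_ifs <;> norm_num
          · split_ifs <;> norm_num
        obtain ⟨r1, r2⟩ := roots_ncard hne
        have hsub : W j ⊆ {x : ℤ | (PP f g h j).eval x = 0} := by
          rw [hW]; exact fun x hx => hx.2
        exact ⟨r1.subset hsub, (Set.ncard_le_ncard hsub r1).trans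
          (r2.trans (PP_natDegree hfD hgD hhD j1' j2' j3'))⟩
      · have hemp : W j = ∅ := by
          rw [hW]
          ext x
          simp only [Set.mem_empty_iff_false, iff_false]
          exact fun hx => hyp hx.1
        rw [hemp, Set.ncard_empty]
        exact ⟨Set.finite_empty, Nat.zero_le _⟩
    have hsub : Exc f g h N ⊆ ⋃ j ∈ J, W j := by
      rintro x ⟨hxN, m, n, k, hs⟩
      obtain ⟨e1, e2, e3⟩ := hE x hxN m n k hs
      obtain ⟨m', n', hm', hn', hk', hmE, hnE, hkE, hyp, heq⟩ := norm_exps hs e1 e2 e3 h7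
      obtain ⟨s, hs1⟩ := natAbs_pow_sign (f.eval x) m'
      obtain ⟨t, ht1⟩ := natAbs_pow_sign (g.eval x) n'
      obtain ⟨r, hr1⟩ := natAbs_pow_sign (h.eval x) k
      have heqZ : ((((f.eval x).natAbs ^ m' : ℕ)) : ℤ) + ((((g.eval x).natAbs ^ n' : ℕ)) : ℤ) =
          ((((h.eval x).natAbs ^ k : ℕ)) : ℤ) := by exact_mod_cast heq
      rw [hs1, ht1, hr1] at heqZ
      -- multiply with the sign of the third term
      cases r
      · refine Set.mem_biUnion (x := (m', n', k, !s, !t)) ?_ ?_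
        · rw [hJ]
          simp only [Finset.coe_product, Set.mem_prod, Finset.mem_coe, Finset.mem_Icc,
            Finset.mem_univ, and_true]
          exact ⟨⟨hm', hmE⟩, ⟨hn', hnE⟩, ⟨hk', hkE⟩⟩
        · rw [hW]
          refine ⟨hyp, ?_⟩
          unfold PP
          simp only [eval_add, eval_mul, eval_pow, eval_C]
          cases s <;> cases t <;> simp at heqZ ⊢ <;> linarith
      · refine Set.mem_biUnion (x := (m', n', k, s, t)) ?_ ?_
        · rw [hJ]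
          simp only [Finset.coe_product, Set.mem_prod, Finset.mem_coe, Finset.mem_Icc,
            Finset.mem_univ, and_true]
          exact ⟨⟨hm', hmE⟩, ⟨hn', hnE⟩, ⟨hk', hkE⟩⟩
        · rw [hW]
          refine ⟨hyp, ?_⟩
          unfold PP
          simp only [eval_add, eval_mul, eval_pow, eval_C]
          cases s <;> cases t <;> simp at heqZ ⊢ <;> linarith
    have hfinU : (⋃ j ∈ J, W j).Finite := J.finite_toSet.biUnion fun j hj => (hWc j hj).1
    calc (Exc f g h N).ncard ≤ (⋃ j ∈ J, W j).ncard := Set.ncard_le_ncard hsub hfinU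
      _ ≤ ∑ j ∈ J, (W j).ncard := Finset.set_ncard_biUnion_le _ _
      _ ≤ ∑ _j ∈ J, E * D := Finset.sum_le_sum fun j hj => (hWc j hj).2
      _ = 4 * (E * (E * E)) * (E * D) := by rw [Finset.sum_const, hJc, smul_eq_mul]
      _ ≤ _ := Nat.le_add_left _ _
  · obtain ⟨c1, c2⟩ := coprime_count hf hcop
    have hsub : Exc f g h N ⊆ {n : ℤ | IsCoprime (f.eval n) (g.eval n)} := by
      rintro x ⟨-, m, n, k, -, -, -, hab, -⟩
      exact Int.isCoprime_iff_gcd_eq_one.mpr hab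
    calc (Exc f g h N).ncard ≤ {n : ℤ | IsCoprime (f.eval n) (g.eval n)}.ncard :=
          Set.ncard_le_ncard hsub c1
      _ ≤ 2 * f.natDegree := c2
      _ ≤ 2 * D := by omega
      _ ≤ _ := Nat.le_add_right _ _

theorem ordered_polylog : ∃ (C : ℝ) (κ : ℕ), 0 < C ∧ ∀ (D H N : ℕ) (f g h : ℤ[X]),
    f.natDegree ≤ D → g.natDegree ≤ D → h.natDegree ≤ D →
    (∀ i, |f.coeff i| ≤ H) → (∀ i, |g.coeff i| ≤ H) → (∀ i, |h.coeff i| ≤ H) →
    (0 < f.natDegree ∨ 0 < g.natDegree ∨ 0 < h.natDegree) →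
    ((Exc f g h N).ncard : ℝ) ≤
      C * (((D : ℝ) + 1) * Real.log (((H : ℝ) + 2) * ((N : ℝ) + 2))) ^ κ := by
  obtain ⟨C₀, κ, hC, hbound⟩ := Pool.Agent.Y902.FB.exp_bound_real
  refine ⟨6 * (C₀ + 7) ^ 4, 4 * κ + 1, by positivity, ?_⟩
  intro D H N f g h hfD hgD hhD hfH hgH hhH hdeg
  obtain ⟨T, hT⟩ : ∃ T : ℝ, T = Real.log (((H : ℝ) + 2) * ((N : ℝ) + 2)) := ⟨_, rfl⟩
  obtain ⟨Y, hY⟩ : ∃ Y : ℝ, Y = ((D : ℝ) + 1) * T := ⟨_, rfl⟩
  have hH0 : (0 : ℝ) ≤ H := Nat.cast_nonneg H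
  have hN0 : (0 : ℝ) ≤ N := Nat.cast_nonneg N
  have hD0 : (0 : ℝ) ≤ D := Nat.cast_nonneg D
  have hT1 : 1 ≤ T := by
    have h1 : (4 : ℝ) ≤ ((H : ℝ) + 2) * ((N : ℝ) + 2) := by nlinarith
    have h2 := Real.log_le_log (by norm_num) h1
    have h3 : Real.log 4 = 2 * Real.log 2 := by
      rw [show (4 : ℝ) = 2 ^ 2 by norm_num, Real.log_pow]; norm_num
    have h4 := Real.log_two_gt_d9
    rw [hT]; linarith
  have hYD : (D : ℝ) + 1 ≤ Y := by rw [hY]; exact le_mul_of_one_le_right (by linarith) hT1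
  have hY1 : 1 ≤ Y := by linarith
  rw [← hT, ← hY]
  obtain ⟨E, hE⟩ : ∃ E : ℕ, E = ⌊C₀ * Y ^ κ⌋₊ + 7 := ⟨_, rfl⟩
  have hYκ : 1 ≤ Y ^ κ := one_le_pow₀ hY1
  have hER : (E : ℝ) ≤ (C₀ + 7) * Y ^ κ := by
    rw [hE]; push_cast
    have := Nat.floor_le (show 0 ≤ C₀ * Y ^ κ by positivity)
    linarith
  have hEbound : ∀ x : ℤ, |x| ≤ N → ∀ m n k : ℕ,
      Sol (f.eval x).natAbs (g.eval x).natAbs (h.eval x).natAbs m n k →
      (2 ≤ (f.eval x).natAbs → m ≤ E) ∧ (2 ≤ (g.eval x).natAbs → n ≤ E) ∧ k ≤ E := by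
    intro x hx m n k hs
    obtain ⟨h2m, h2n, h2k⟩ := hs.two_le
    obtain ⟨ha, hb, hc, hab, hac, hbc, hm, hn, hk, hyp, heq⟩ := hs
    obtain ⟨k1, k2, k3⟩ := hbound _ _ _ m n k ha hb hc hab hac hbc h2m h2n h2k heq
    obtain ⟨M, hM⟩ : ∃ M, M = max (f.eval x).natAbs (max (g.eval x).natAbs (h.eval x).natAbs) :=
      ⟨_, rfl⟩
    rw [← hM] at k1 k2 k3
    have hM1 : 1 ≤ M := by rw [hM]; exact (show 1 ≤ (f.eval x).natAbs from ha).trans (le_max_left _ _)
    have hMB : M ≤ ((H + 2) * (N + 2)) ^ (D + 1) := by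
      rw [hM]
      exact max_le (eval_bound hfD hfH hx) (max_le (eval_bound hgD hgH hx) (eval_bound hhD hhH hx))
    have hlogM : Real.log (M : ℝ) ≤ Y := by
      have h1 : (M : ℝ) ≤ (((H : ℝ) + 2) * ((N : ℝ) + 2)) ^ (D + 1) := by exact_mod_cast hMB
      have h2 := Real.log_le_log (by exact_mod_cast hM1) h1
      rw [Real.log_pow, ← hT] at h2
      rw [hY]
      push_cast at h2
      exact h2
    have hlog0 : 0 ≤ Real.log (M : ℝ) := Real.log_nonneg (by exact_mod_cast hM1)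
    have hle : C₀ * Real.log (M : ℝ) ^ κ ≤ C₀ * Y ^ κ :=
      mul_le_mul_of_nonneg_left (pow_le_pow_left₀ hlog0 hlogM κ) hC.le
    have key : ∀ m : ℕ, (m : ℝ) ≤ C₀ * Real.log (M : ℝ) ^ κ → m ≤ E := by
      intro m hm
      have h1 : m ≤ ⌊C₀ * Y ^ κ⌋₊ := Nat.le_floor (hm.trans hle)
      omega
    exact ⟨fun h2 => key m (k1 h2), fun h2 => key n (k2 h2), key k k3⟩
  have hcount := ordered_count hfD hgD hhD hdeg (by omega : 7 ≤ E) hEbound
  have h1 : ((Exc f g h N).ncard : ℝ) ≤ 2 * D + 4 * (E * (E * E)) * (E * D) := by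
    exact_mod_cast hcount
  have hE1 : (1 : ℝ) ≤ E := by
    have : 1 ≤ E := by omega
    exact_mod_cast this
  have h2 : (2 : ℝ) * D + 4 * (E * (E * E)) * (E * D) ≤ 6 * (E : ℝ) ^ 4 * ((D : ℝ) + 1) := by
    have h3 : (1 : ℝ) ≤ (E : ℝ) ^ 4 := one_le_pow₀ hE1
    have h4 : (4 : ℝ) * (E * (E * E)) * (E * D) = 4 * ((E : ℝ) ^ 4 * D) := by ring
    rw [h4]
    have h5 : (D : ℝ) ≤ (E : ℝ) ^ 4 * D := le_mul_of_one_le_left hD0 h3
    have h6 : 0 ≤ (E : ℝ) ^ 4 := by positivity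
    calc (2 : ℝ) * D + 4 * ((E : ℝ) ^ 4 * D) ≤ 6 * ((E : ℝ) ^ 4 * D) := by linarith
      _ ≤ 6 * (E : ℝ) ^ 4 * ((D : ℝ) + 1) := by linarith
  calc ((Exc f g h N).ncard : ℝ) ≤ 2 * D + 4 * (E * (E * E)) * (E * D) := h1
    _ ≤ 6 * (E : ℝ) ^ 4 * ((D : ℝ) + 1) := h2
    _ ≤ 6 * ((C₀ + 7) * Y ^ κ) ^ 4 * Y := by gcongr
    _ = 6 * (C₀ + 7) ^ 4 * Y ^ (4 * κ + 1) := by
        rw [mul_pow, ← pow_mul, pow_succ]; ring

end Pool.Agent.X5.FC
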